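import Pool.Agent.Lib.MP_994fee_co.TwB.Game19
import Pool.Agent.Lib.MP_994fee_co.Two.Frame

/-!
# Blocks with at most two adjacent parents, and edges between blocks with the same parents
-/

namespace Pool.Agent.Lib.MP_994fee_co

/-- Numbered blocks of at most `n` vertices; the block `i` has a set `P i` of at most two smaller
blocks, and if there are two of them, one lies in the set of the other. An edge of `G` lies in a
block, or joins a block to a member of its set, or joins two blocks with the same set and different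
ranks (ranks below `n`), and every block has at most `n` neighbouring blocks with the same set and
smaller rank. -/
def TwoTreePlus {V : Type} (n : ℕ) (G : SimpleGraph V) : Prop :=
  ∃ (m : ℕ) (β : V → Fin m) (P : Fin m → Finset (Fin m)) (ρ : Fin m → ℕ),
    (∀ i, ∀ j ∈ P i, j < i) ∧ (∀ i, (P i).card ≤ 2) ∧
    (∀ i, ∀ j ∈ P i, ∀ k ∈ P i, j < k → j ∈ P k) ∧
    (∀ i, {v | β v = i}.ncard ≤ n) ∧ (∀ i, ρ i < n) ∧
    (∀ v w, G.Adj v w → β v = β w ∨ β v ∈ P (β w) ∨ β w ∈ P (β v) ∨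
      (P (β v) = P (β w) ∧ ρ (β v) ≠ ρ (β w))) ∧
    ∀ i, {j | P j = P i ∧ ρ j < ρ i ∧ ∃ v w, G.Adj v w ∧ β v = i ∧ β w = j}.ncard ≤ n

/-- `G` is layered with parameter `n`: the vertices have levels below `n`, every vertex has at most
`n` neighbours of smaller level, and every level induces a graph as in `TwoTreePlus n`. -/
def TwoTreePlusLayered {V : Type} (n : ℕ) (G : SimpleGraph V) : Prop :=
  ∃ lev : V → ℕ, (∀ v, lev v < n) ∧ (∀ v, {w | G.Adj v w ∧ lev w < lev v}.ncard ≤ n) ∧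
    ∀ i, TwoTreePlus n (G.induce {v | lev v = i})

namespace TwS

open Finset TwB

/-- The structure on a set of vertices. -/
def PlusOn {V : Type} (n : ℕ) (G : SimpleGraph V) (S : Finset V) : Prop :=
  ∃ (β : V → ℕ) (P : ℕ → Finset ℕ) (ρ : ℕ → ℕ) (B : Finset ℕ), (∀ v ∈ S, β v ∈ B) ∧
    (∀ i, ∀ j ∈ P i, j < i) ∧ (∀ i ∈ B, P i ⊆ B) ∧ (∀ i, (P i).card ≤ 2) ∧
    (∀ i, ∀ j ∈ P i, ∀ k ∈ P i, j < k → j ∈ P k) ∧
    (∀ i, ∀ W ⊆ S, (∀ v ∈ W, β v = i) → W.card ≤ n) ∧ (∀ i, ρ i < n) ∧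
    (∀ v ∈ S, ∀ w ∈ S, G.Adj v w → β v = β w ∨ β v ∈ P (β w) ∨ β w ∈ P (β v) ∨
      (P (β v) = P (β w) ∧ ρ (β v) ≠ ρ (β w))) ∧
    ∀ i, ∀ W : Finset ℕ, (∀ j ∈ W, P j = P i ∧ ρ j < ρ i ∧
      ∃ v ∈ S, ∃ w ∈ S, G.Adj v w ∧ β v = i ∧ β w = j) → W.card ≤ n

/-- Apart from its own colours, the block `v` cannot distinguish the states `σ` and `σ'`. -/
def LocP {n : ℕ} (P : ℕ → Finset ℕ) (R : ℕ → ℕ → Prop) (A : Finset ℕ) (v : ℕ)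
    (σ σ' : St ℕ n) : Prop :=
  σ.N v = σ'.N v ∧ (∀ u ∈ A, (u ∈ P v ∨ v ∈ P u) →
    σ.c u = σ'.c u ∧ σ.b v u = σ'.b v u ∧ σ.b u v = σ'.b u v) ∧
    ∀ u ∈ A, R v u → σ.c u = σ'.c u

/-- The sizes of the lists and of the label boxes are right. -/
def GoodP {n : ℕ} (P : ℕ → Finset ℕ) (L M q : ℕ) (A : Finset ℕ) (σ : St ℕ n) : Prop :=
  (∀ v ∈ A, ∀ k, σ.c v k ∈ σ.N v k ∧ (σ.N v k).card = L ∧ σ.c v k < q) ∧
    ∀ u ∈ A, ∀ v ∈ A, (u ∈ P v ∨ v ∈ P u) → ∀ k, σ.N u k ⊆ σ.b u v k ∧ (σ.b u v k).card ≤ M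

/-- The strategy of the block vertices is local on `A`. -/
def LocStrP {n : ℕ} (P : ℕ → Finset ℕ) (R : ℕ → ℕ → Prop) (A : Finset ℕ)
    (h : ℕ → St ℕ n → Fin n → Finset ℕ) : Prop :=
  ∀ v ∈ A, ∀ k σ σ', LocP P R A v σ σ' → (∀ j, j ≠ k → σ.c v j = σ'.c v j) → h v σ k = h v σ' k

/-- The players are beaten on `A`. -/
def BeatP (P : ℕ → Finset ℕ) (R : ℕ → ℕ → Prop) (n s L M q : ℕ) (A : Finset ℕ) : Prop :=
  ∀ h : ℕ → St ℕ n → Fin n → Finset ℕ, LocStrP P R A h → (∀ v σ k, (h v σ k).card ≤ s) →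
    ∃ σ, GoodP P L M q A σ ∧ ∀ v ∈ A, ∀ k, σ.c v k ∉ h v σ k

/-- The extension problem of one block with the colour `f` is solvable. -/
def SolV {n : ℕ} (L M : ℕ) (T S : Bx n) (κ : KapV n) (f : Fin n → ℕ) : Prop :=
  ∃ (A : Bx n → (Fin n → ℕ) → Bx n) (B : (Fin n → ℕ) → Bx n → Bx n)
    (N : (Fin n → ℕ) → Bx n → (Fin n → ℕ) → Bx n → Bx n),
    (∀ P c k, (A P c k).card ≤ M) ∧ (∀ τ Q k, (B τ Q k).card ≤ M) ∧
    ∀ τ P c Q, (∀ k, τ k ∈ P k) → (∀ k, c k ∈ Q k) → (∀ k, P k ⊆ T k) → (∀ k, Q k ⊆ S k) →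
      (∀ k, (P k).card = L) → (∀ k, (Q k).card = L) →
      (∀ k, f k ∈ N τ P c Q k ∧ (N τ P c Q k).card = L ∧ N τ P c Q k ⊆ A P c k ∧
        N τ P c Q k ⊆ B τ Q k) ∧ ∀ k, f k ∉ κ τ c (A P c) (B τ Q) (N τ P c Q) f k

/-- ROW X: every box with sides of `Lb` colours contains a solvable colour vector. -/
def RowX : Prop := ∀ n s : ℕ, ∃ M Lb : ℕ, n * s + 1 < M ∧ 0 < Lb ∧
    ∀ (T S : Bx n) (κ : KapV n), KVOK s κ → (∀ k, (T k).card ≤ M) → (∀ k, (S k).card ≤ M) →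
      ∀ ι : Fin n → Fin Lb → ℕ, (∀ k, Function.Injective (ι k)) →
        ∃ x : Fin n → Fin Lb, SolV (n * s + 1) M T S κ (fun k => ι k (x k))

/-- ROW G: elimination of a group of blocks with the same parents. -/
def RowG : Prop := ∀ n s : ℕ, ∃ M q : ℕ, 0 < q ∧ ∀ (P : ℕ → Finset ℕ) (R : ℕ → ℕ → Prop)
    (ρ : ℕ → ℕ) (A Z P0 : Finset ℕ), Disjoint A Z → P0 ⊆ A → P0.card ≤ 2 →
    (∀ z ∈ Z, P z = P0) → (∀ j ∈ P0, ∀ k ∈ P0, j < k → j ∈ P k) →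
    (∀ z ∈ Z, ∀ u ∈ A ∪ Z, z ∉ P u) → (∀ z ∈ Z, ∀ u ∈ A, ¬ R z u ∧ ¬ R u z) →
    (∀ z ∈ Z, ρ z < n) → (∀ z ∈ Z, ∀ z' ∈ Z, R z z' → ρ z ≠ ρ z') →
    (∀ z ∈ Z, ∀ W ⊆ Z, (∀ z' ∈ W, R z z' ∧ ρ z' < ρ z) → W.card ≤ n) →
    BeatP P R n s (n * s + 1) M q A → BeatP P R n s (n * s + 1) M q (A ∪ Z)

/-- ROW O: the structure implies that the players lose. -/
def RowO : Prop := ∀ n s : ℕ, ∃ q : ℕ, 0 < q ∧ ∀ {V : Type} (G : SimpleGraph V) (S : Finset V),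
    PlusOn n G S → TL.LosesOn G S s q

end TwS

end Pool.Agent.Lib.MP_994fee_co
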