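import Pool.Agent.Lib.MP_994fee_co.TwS.Defs19

/-!
# Elimination of a group of blocks with the same parents
-/

namespace Pool.Agent.Lib.MP_994fee_co.TwS

open Finset TwB

/-- The state with a new group `Z` of blocks. -/
def extG {n : ℕ} (σ : St ℕ n) (Z : Finset ℕ) (F : ℕ → Fin n → ℕ) (G : ℕ → Bx n)
    (B C : ℕ → ℕ → Bx n) : St ℕ n :=
  ⟨fun v => if v ∈ Z then F v else σ.c v, fun v => if v ∈ Z then G v else σ.N v,
    fun u v => if u ∈ Z then B u v else if v ∈ Z then C v u else σ.b u v⟩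

theorem beat_stepG {P : ℕ → Finset ℕ} {R : ℕ → ℕ → Prop} {n s L M q : ℕ} {A Z : Finset ℕ}
    (hd : ∀ v ∈ A, v ∉ Z) (hch : ∀ z ∈ Z, ∀ u ∈ A ∪ Z, z ∉ P u)
    (hR : ∀ z ∈ Z, ∀ u ∈ A, ¬ R z u ∧ ¬ R u z) (hA : BeatP P R n s L M q A)
    (h : ℕ → St ℕ n → Fin n → Finset ℕ) (hl : LocStrP P R (A ∪ Z) h)
    (hg : ∀ v σ k, (h v σ k).card ≤ s)
    (F : St ℕ n → ℕ → Fin n → ℕ) (G : St ℕ n → ℕ → Bx n) (B C : St ℕ n → ℕ → ℕ → Bx n)
    (hloc : ∀ v ∈ A, ∀ z ∈ Z, v ∈ P z → ∀ σ σ', LocP P R A v σ σ' →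
      F σ z = F σ' z ∧ B σ z v = B σ' z v ∧ C σ z v = C σ' z v)
    (hgood : ∀ σ, GoodP P L M q A σ → ∀ z ∈ Z,
      (∀ k, F σ z k ∈ G σ z k ∧ (G σ z k).card = L ∧ F σ z k < q) ∧
      (∀ v ∈ A, v ∈ P z → ∀ k, G σ z k ⊆ B σ z v k ∧ (B σ z v k).card ≤ M ∧
        σ.N v k ⊆ C σ z v k ∧ (C σ z v k).card ≤ M) ∧
      ∀ k, F σ z k ∉ h z (extG σ Z (F σ) (G σ) (B σ) (C σ)) k) :
    ∃ σ, GoodP P L M q (A ∪ Z) σ ∧ ∀ v ∈ A ∪ Z, ∀ k, σ.c v k ∉ h v σ k := by
  obtain ⟨σ, hσ, hσ2⟩ := hA (fun v σ => h v (extG σ Z (F σ) (fun _ _ => ∅) (B σ) (C σ))) (by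
    intro v hv k σ σ' hL hown
    have hvZ := hd v hv
    apply hl v (mem_union_left Z hv)
    · refine ⟨?_, ?_, ?_⟩
      · simp only [extG, if_neg hvZ]
        exact hL.1
      · intro u hu hvu
        by_cases huZ : u ∈ Z
        · have hvu' : v ∈ P u := by
            rcases hvu with h1 | h1
            · exact absurd h1 (hch u huZ v (mem_union_left Z hv))
            · exact h1
          obtain ⟨h1, h2, h3⟩ := hloc v hv u huZ hvu' σ σ' hL
          simp only [extG, if_neg hvZ, if_pos huZ]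
          exact ⟨h1, h3, h2⟩
        · have huA : u ∈ A := by
            rcases mem_union.1 hu with h1 | h1
            · exact h1
            · exact absurd h1 huZ
          simp only [extG, if_neg hvZ, if_neg huZ]
          exact hL.2.1 u huA hvu
      · intro u hu hvu
        by_cases huZ : u ∈ Z
        · exact absurd hvu (hR u huZ v hv).2
        · have huA : u ∈ A := by
            rcases mem_union.1 hu with h1 | h1
            · exact h1
            · exact absurd h1 huZ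
          simp only [extG, if_neg huZ]
          exact hL.2.2 u huA hvu
    · intro j hj
      simp only [extG, if_neg hvZ]
      exact hown j hj) (fun v σ k => hg v _ k)
  have hgd := hgood σ hσ
  refine ⟨extG σ Z (F σ) (G σ) (B σ) (C σ), ⟨?_, ?_⟩, ?_⟩
  · intro v hv
    by_cases hvZ : v ∈ Z
    · simp only [extG, if_pos hvZ]
      exact (hgd v hvZ).1
    · have hvA : v ∈ A := by
        rcases mem_union.1 hv with h1 | h1
        · exact h1
        · exact absurd h1 hvZ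
      simp only [extG, if_neg hvZ]
      exact hσ.1 v hvA
  · intro u hu v hv huv k
    by_cases huZ : u ∈ Z
    · have h1 : v ∈ P u := by
        rcases huv with h1 | h1
        · exact absurd h1 (hch u huZ v hv)
        · exact h1
      have hvZ : v ∉ Z := fun h2 => hch v h2 u hu h1
      have hvA : v ∈ A := by
        rcases mem_union.1 hv with h1 | h1
        · exact h1
        · exact absurd h1 hvZ
      simp only [extG, if_pos huZ]
      exact ⟨((hgd u huZ).2.1 v hvA h1 k).1, ((hgd u huZ).2.1 v hvA h1 k).2.1⟩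
    · have huA : u ∈ A := by
        rcases mem_union.1 hu with h1 | h1
        · exact h1
        · exact absurd h1 huZ
      by_cases hvZ : v ∈ Z
      · have h1 : u ∈ P v := by
          rcases huv with h1 | h1
          · exact h1
          · exact absurd h1 (hch v hvZ u hu)
        simp only [extG, if_neg huZ, if_pos hvZ]
        exact ⟨((hgd v hvZ).2.1 u huA h1 k).2.2.1, ((hgd v hvZ).2.1 u huA h1 k).2.2.2⟩
      · have hvA : v ∈ A := by
          rcases mem_union.1 hv with h1 | h1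
          · exact h1
          · exact absurd h1 hvZ
        simp only [extG, if_neg huZ, if_neg hvZ]
        exact hσ.2 u huA v hvA huv k
  · intro v hv k
    by_cases hvZ : v ∈ Z
    · have h1 := (hgd v hvZ).2.2 k
      have h2 : (extG σ Z (F σ) (G σ) (B σ) (C σ)).c v = F σ v := by
        simp only [extG, if_pos hvZ]
      rw [h2]
      exact h1
    · have hvA : v ∈ A := by
        rcases mem_union.1 hv with h1 | h1
        · exact h1
        · exact absurd h1 hvZ
      have h6 := hσ2 v hvA k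
      have h7 : h v (extG σ Z (F σ) (G σ) (B σ) (C σ)) k =
          h v (extG σ Z (F σ) (fun _ _ => ∅) (B σ) (C σ)) k := by
        apply hl v hv
        · refine ⟨?_, fun u _ _ => ⟨rfl, rfl, rfl⟩, fun u _ _ => rfl⟩
          simp only [extG, if_neg hvZ]
        · intro j _
          rfl
      rw [h7]
      simp only [extG, if_neg hvZ] at h6 ⊢
      exact h6

/-- The state seen by the block `z`. -/
def stt {n : ℕ} (Z : Finset ℕ) (κ : ℕ → Fin n → ℕ) (x z : ℕ) (T0 S0 : Bx n)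
    (τ c : Fin n → ℕ) (X Y N : Bx n) (f : Fin n → ℕ) : St ℕ n :=
  ⟨fun v => if v = z then f else if v ∈ Z then κ v else if v = x then τ else c, fun _ => N,
    fun u v => if u = z then (if v = x then X else Y) else if u = x then T0 else S0⟩

/-- The guesses of the block `z`. -/
def kv {n : ℕ} (h : ℕ → St ℕ n → Fin n → Finset ℕ) (Z : Finset ℕ) (κ : ℕ → Fin n → ℕ) (x z : ℕ)
    (T0 S0 : Bx n) : KapV n :=
  fun τ c X Y N f k => h z (stt Z κ x z T0 S0 τ c X Y N f) k

theorem exists_group {P : ℕ → Finset ℕ} {R : ℕ → ℕ → Prop} {n s L M Lb q : ℕ} {ρ : ℕ → ℕ}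
    {A Z : Finset ℕ}
    (hX : ∀ (T S : Bx n) (κ : KapV n), KVOK s κ → (∀ k, (T k).card ≤ M) →
      (∀ k, (S k).card ≤ M) → ∀ ι : Fin n → Fin Lb → ℕ, (∀ k, Function.Injective (ι k)) →
        ∃ x : Fin n → Fin Lb, SolV L M T S κ (fun k => ι k (x k)))
    (hQ : ∀ {V : Type} [Fintype V] [DecidableEq V] (β : V → ℕ) (C : Finset ℕ) (ρ : ℕ → ℕ)
      (R : ℕ → ℕ → Prop) (F : ℕ → (V → ℕ) → (V → ℕ) → Prop),
      (∀ z ∈ C, ρ z < n) → (∀ z ∈ C, ∀ z' ∈ C, R z z' → ρ z ≠ ρ z') →
      (∀ z ∈ C, ∀ S : Finset ℕ, S ⊆ C → (∀ z' ∈ S, R z z' ∧ ρ z' < ρ z) → S.card ≤ n) →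
      (∀ z, ((Finset.univ : Finset V).filter (fun v => β v = z)).card ≤ n) →
      (∀ z ∈ C, ∀ κ κ' a, (∀ v, β v ∈ C → R z (β v) → κ v = κ' v) → F z κ a → F z κ' a) →
      (∀ z ∈ C, ∀ κ a a', (∀ v, β v = z → a v = a' v) → F z κ a → F z κ a') →
      (∀ z ∈ C, ∀ κ, TL.BoxFree q Lb (F z κ)) →
      ∃ κ : V → ℕ, ∀ z ∈ C, ¬ F z κ κ)
    (hd : ∀ v ∈ A, v ∉ Z) (hch : ∀ z ∈ Z, ∀ u ∈ A ∪ Z, z ∉ P u)
    (hPA : ∀ z ∈ Z, P z ⊆ A)
    (hR : ∀ z ∈ Z, ∀ u ∈ A, ¬ R z u ∧ ¬ R u z)
    (hρ : ∀ z ∈ Z, ρ z < n) (hρ2 : ∀ z ∈ Z, ∀ z' ∈ Z, R z z' → ρ z ≠ ρ z')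
    (hρ3 : ∀ z ∈ Z, ∀ W ⊆ Z, (∀ z' ∈ W, R z z' ∧ ρ z' < ρ z) → W.card ≤ n)
    (h : ℕ → St ℕ n → Fin n → Finset ℕ) (hl : LocStrP P R (A ∪ Z) h)
    (hg : ∀ v σ k, (h v σ k).card ≤ s) (x : ℕ) (T0 S0 : Bx n) (hT0 : ∀ k, (T0 k).card ≤ M)
    (hS0 : ∀ k, (S0 k).card ≤ M) :
    ∃ κ : ℕ → Fin n → ℕ, ∀ z ∈ Z, (∀ k, κ z k < q) ∧
      SolV L M T0 S0 (kv h Z κ x z T0 S0) (κ z) := by
  classical
  have hRz : ∀ z ∈ Z, ¬ R z z := fun z hz hr => hρ2 z hz z hz hr rfl
  have hKV : ∀ z ∈ Z, ∀ κ : ℕ → Fin n → ℕ, KVOK s (kv h Z κ x z T0 S0) := by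
    intro z hz κ
    refine ⟨fun τ c X Y N f k => hg _ _ _, ?_⟩
    intro τ c X Y N f f' k hff
    apply hl z (mem_union_right A hz)
    · refine ⟨rfl, ?_, ?_⟩
      · intro u hu huz
        have h1 : u ∈ P z := by
          rcases huz with h1 | h1
          · exact h1
          · exact absurd h1 (hch z hz u hu)
        have h2 : u ≠ z := by
          rintro rfl
          exact hch u hz u hu h1
        simp only [stt, if_neg h2]
        exact ⟨trivial, trivial, trivial⟩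
      · intro u hu huz
        have h2 : u ≠ z := by
          rintro rfl
          exact hRz u hz huz
        simp only [stt, if_neg h2]
    · intro j hj
      simp only [stt, if_true]
      exact hff j hj
  have hdep : ∀ z ∈ Z, ∀ κ κ' : ℕ → Fin n → ℕ, (∀ u ∈ Z, R z u → κ u = κ' u) →
      kv h Z κ x z T0 S0 = kv h Z κ' x z T0 S0 := by
    intro z hz κ κ' hκ
    funext τ c X Y N f k
    apply hl z (mem_union_right A hz)
    · refine ⟨rfl, ?_, ?_⟩
      · intro u hu huz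
        have h1 : u ∈ P z := by
          rcases huz with h1 | h1
          · exact h1
          · exact absurd h1 (hch z hz u hu)
        have h3 : u ∉ Z := hd u (hPA z hz h1)
        simp only [stt, if_neg h3]
        exact ⟨trivial, trivial, trivial⟩
      · intro u hu huz
        have huZ : u ∈ Z := by
          rcases mem_union.1 hu with h1 | h1
          · exact absurd huz (hR z hz u h1).1
          · exact h1
        simp only [stt, if_pos huZ, hκ u huZ huz]
    · intro j _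
      simp only [stt, if_true]
  let V := {z // z ∈ Z} × Fin n
  let tl : (V → ℕ) → ℕ → Fin n → ℕ := fun κ z k => if hz : z ∈ Z then κ (⟨z, hz⟩, k) else 0
  have htl : ∀ (κ : V → ℕ) (z : ℕ) (hz : z ∈ Z) (k : Fin n), tl κ z k = κ (⟨z, hz⟩, k) := by
    intro κ z hz k
    simp only [tl, dif_pos hz]
  obtain ⟨κ, hκ⟩ := hQ (V := V) (fun v => (v.1 : ℕ)) Z ρ R
    (fun z κ a => (∃ k, q ≤ tl a z k) ∨ ¬ SolV L M T0 S0 (kv h Z (tl κ) x z T0 S0) (tl a z))
    hρ hρ2 (fun z hz S hS h1 => hρ3 z hz S hS h1)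
    (by
      intro z
      have h1 : (univ.filter (fun v : V => (v.1 : ℕ) = z)).card ≤ (univ : Finset (Fin n)).card := by
        refine Finset.card_le_card_of_injOn Prod.snd (fun _ _ => Finset.mem_coe.2 (mem_univ _)) ?_
        intro v hv w hw hvw
        have h2 := (mem_filter.1 (Finset.mem_coe.1 hv)).2
        have h3 := (mem_filter.1 (Finset.mem_coe.1 hw)).2
        exact Prod.ext (Subtype.ext (h2.trans h3.symm)) hvw
      rw [card_univ, Fintype.card_fin] at h1
      exact h1)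
    (by
      intro z hz κ κ' a hκκ hF
      rcases hF with h1 | h1
      · exact Or.inl h1
      · right
        have h2 := hdep z hz (tl κ) (tl κ') (by
          intro u hu hr
          funext k
          rw [htl κ u hu, htl κ' u hu]
          exact hκκ (⟨u, hu⟩, k) hu hr)
        rw [← h2]
        exact h1)
    (by
      intro z hz κ a a' haa hF
      have h2 : tl a z = tl a' z := by
        funext k
        rw [htl a z hz, htl a' z hz]
        exact haa (⟨z, hz⟩, k) rfl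
      rw [← h2]
      exact hF)
    (by
      intro z hz κ σ hσ hσq
      obtain ⟨y, hy⟩ := hX T0 S0 (kv h Z (tl κ) x z T0 S0) (hKV z hz _) hT0 hS0
        (fun k => σ (⟨z, hz⟩, k)) (fun k => hσ _)
      refine ⟨fun v => y v.2, ?_⟩
      have h2 : tl (fun v => σ v (y v.2)) z = fun k => σ (⟨z, hz⟩, k) (y k) := by
        funext k
        exact htl (fun v => σ v (y v.2)) z hz k
      change ¬ ((∃ k, q ≤ tl (fun v => σ v (y v.2)) z k) ∨
        ¬ SolV L M T0 S0 (kv h Z (tl κ) x z T0 S0) (tl (fun v => σ v (y v.2)) z))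
      rw [h2]
      rintro (⟨k, hk⟩ | h1)
      · exact absurd (hσq (⟨z, hz⟩, k) (y k)) (not_lt.2 hk)
      · exact h1 hy)
  refine ⟨tl κ, ?_⟩
  intro z hz
  have h1 := hκ z hz
  push Not at h1
  exact ⟨h1.1, h1.2⟩

end Pool.Agent.Lib.MP_994fee_co.TwS
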