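import Pool.Agent.Lib.MP_994fee_co.TwS.Group19

/-!
# Row G: elimination of a group of blocks with the same parents
-/

namespace Pool.Agent.Lib.MP_994fee_co.TwS

open Finset TwB

theorem group_ext {P : ℕ → Finset ℕ} {R : ℕ → ℕ → Prop} {n s L M q : ℕ} {A Z : Finset ℕ}
    (hd : ∀ v ∈ A, v ∉ Z) (hch : ∀ z ∈ Z, ∀ u ∈ A ∪ Z, z ∉ P u)
    (hPA : ∀ z ∈ Z, P z ⊆ A)
    (hR : ∀ z ∈ Z, ∀ u ∈ A, ¬ R z u ∧ ¬ R u z) (hRz : ∀ z ∈ Z, ¬ R z z)
    (hA : BeatP P R n s L M q A)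
    (h : ℕ → St ℕ n → Fin n → Finset ℕ) (hl : LocStrP P R (A ∪ Z) h)
    (hg : ∀ v σ k, (h v σ k).card ≤ s) (x : ℕ)
    (hK : ∀ T0 S0 : Bx n, ∃ κ : ℕ → Fin n → ℕ, (∀ k, (T0 k).card ≤ M) →
      (∀ k, (S0 k).card ≤ M) → ∀ z ∈ Z, (∀ k, κ z k < q) ∧
      SolV L M T0 S0 (kv h Z κ x z T0 S0) (κ z))
    (T0 S0 P' Q' : St ℕ n → Bx n) (τ c : St ℕ n → Fin n → ℕ)
    (hview : ∀ v ∈ A, ∀ z ∈ Z, v ∈ P z → ∀ σ σ', LocP P R A v σ σ' →
      T0 σ = T0 σ' ∧ S0 σ = S0 σ' ∧ (v = x → P' σ = P' σ' ∧ c σ = c σ') ∧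
        (v ≠ x → τ σ = τ σ' ∧ Q' σ = Q' σ'))
    (hgd : ∀ σ, GoodP P L M q A σ → (∀ k, τ σ k ∈ P' σ k ∧ c σ k ∈ Q' σ k ∧ P' σ k ⊆ T0 σ k ∧
      Q' σ k ⊆ S0 σ k ∧ (P' σ k).card = L ∧ (Q' σ k).card = L ∧ (T0 σ k).card ≤ M ∧
      (S0 σ k).card ≤ M) ∧
      (∀ v ∈ A, ∀ z ∈ Z, v ∈ P z → v = x → σ.c v = τ σ ∧ ∀ k, σ.N v k ⊆ T0 σ k) ∧
      (∀ v ∈ A, ∀ z ∈ Z, v ∈ P z → v ≠ x → σ.c v = c σ ∧ ∀ k, σ.N v k ⊆ S0 σ k)) :
    ∃ σ, GoodP P L M q (A ∪ Z) σ ∧ ∀ v ∈ A ∪ Z, ∀ k, σ.c v k ∉ h v σ k := by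
  classical
  choose κ hκ using hK
  have hS : ∀ (T S : Bx n) (z : ℕ), ∃ (A' : Bx n → (Fin n → ℕ) → Bx n)
      (B' : (Fin n → ℕ) → Bx n → Bx n)
      (N' : (Fin n → ℕ) → Bx n → (Fin n → ℕ) → Bx n → Bx n), (∀ k, (T k).card ≤ M) →
      (∀ k, (S k).card ≤ M) → z ∈ Z → (∀ k, κ T S z k < q) ∧
      (∀ P c k, (A' P c k).card ≤ M) ∧ (∀ τ Q k, (B' τ Q k).card ≤ M) ∧
      ∀ τ P c Q, (∀ k, τ k ∈ P k) → (∀ k, c k ∈ Q k) → (∀ k, P k ⊆ T k) → (∀ k, Q k ⊆ S k) →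
      (∀ k, (P k).card = L) → (∀ k, (Q k).card = L) →
      (∀ k, κ T S z k ∈ N' τ P c Q k ∧ (N' τ P c Q k).card = L ∧ N' τ P c Q k ⊆ A' P c k ∧
        N' τ P c Q k ⊆ B' τ Q k) ∧ ∀ k, κ T S z k ∉ kv h Z (κ T S) x z T S τ c (A' P c) (B' τ Q)
          (N' τ P c Q) (κ T S z) k := by
    intro T S z
    by_cases hh : (∀ k, (T k).card ≤ M) ∧ (∀ k, (S k).card ≤ M) ∧ z ∈ Z
    · obtain ⟨h1, h2, h3⟩ := hh
      obtain ⟨h4, A', B', N', h5⟩ := hκ T S h1 h2 z h3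
      exact ⟨A', B', N', fun _ _ _ => ⟨h4, h5⟩⟩
    · exact ⟨fun _ _ _ => ∅, fun _ _ _ => ∅, fun _ _ _ _ _ => ∅,
        fun h1 h2 h3 => absurd ⟨h1, h2, h3⟩ hh⟩
  choose A' B' N' hAB using hS
  refine beat_stepG hd hch hR hA h hl hg (fun σ z => κ (T0 σ) (S0 σ) z)
    (fun σ z => N' (T0 σ) (S0 σ) z (τ σ) (P' σ) (c σ) (Q' σ))
    (fun σ z v => if v = x then A' (T0 σ) (S0 σ) z (P' σ) (c σ)
      else B' (T0 σ) (S0 σ) z (τ σ) (Q' σ))
    (fun σ _ v => if v = x then T0 σ else S0 σ) ?_ ?_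
  · intro v hv z hz hvz σ σ' hL
    obtain ⟨h1, h2, h3, h4⟩ := hview v hv z hz hvz σ σ' hL
    by_cases hvx : v = x
    · obtain ⟨h5, h6⟩ := h3 hvx
      simp only [if_pos hvx, h1, h2, h5, h6]
      exact ⟨trivial, trivial, trivial⟩
    · obtain ⟨h5, h6⟩ := h4 hvx
      simp only [if_neg hvx, h1, h2, h5, h6]
      exact ⟨trivial, trivial, trivial⟩
  · intro σ hσ z hz
    obtain ⟨h1, h2, h3⟩ := hgd σ hσ
    obtain ⟨h4, h5, h6, h7⟩ := hAB (T0 σ) (S0 σ) z (fun k => (h1 k).2.2.2.2.2.2.1)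
      (fun k => (h1 k).2.2.2.2.2.2.2) hz
    obtain ⟨h8, h9⟩ := h7 (τ σ) (P' σ) (c σ) (Q' σ) (fun k => (h1 k).1) (fun k => (h1 k).2.1)
      (fun k => (h1 k).2.2.1) (fun k => (h1 k).2.2.2.1) (fun k => (h1 k).2.2.2.2.1)
      (fun k => (h1 k).2.2.2.2.2.1)
    refine ⟨fun k => ⟨(h8 k).1, (h8 k).2.1, h4 k⟩, ?_, ?_⟩
    · intro v hv hvz k
      by_cases hvx : v = x
      · simp only [if_pos hvx]
        exact ⟨(h8 k).2.2.1, h5 _ _ k, (h2 v hv z hz hvz hvx).2 k, (h1 k).2.2.2.2.2.2.1⟩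
      · simp only [if_neg hvx]
        exact ⟨(h8 k).2.2.2, h6 _ _ k, (h3 v hv z hz hvz hvx).2 k, (h1 k).2.2.2.2.2.2.2⟩
    · intro k
      have h10 := h9 k
      have h11 : h z (extG σ Z (fun z => κ (T0 σ) (S0 σ) z)
          (fun z => N' (T0 σ) (S0 σ) z (τ σ) (P' σ) (c σ) (Q' σ))
          (fun z v => if v = x then A' (T0 σ) (S0 σ) z (P' σ) (c σ)
            else B' (T0 σ) (S0 σ) z (τ σ) (Q' σ))
          (fun _ v => if v = x then T0 σ else S0 σ)) k =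
          kv h Z (κ (T0 σ) (S0 σ)) x z (T0 σ) (S0 σ) (τ σ) (c σ)
            (A' (T0 σ) (S0 σ) z (P' σ) (c σ)) (B' (T0 σ) (S0 σ) z (τ σ) (Q' σ))
            (N' (T0 σ) (S0 σ) z (τ σ) (P' σ) (c σ) (Q' σ)) (κ (T0 σ) (S0 σ) z) k := by
        apply hl z (mem_union_right A hz)
        · refine ⟨?_, ?_, ?_⟩
          · simp only [extG, stt, if_pos hz]
          · intro u hu huz
            have hu1 : u ∈ P z := by
              rcases huz with h1 | h1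
              · exact h1
              · exact absurd h1 (hch z hz u hu)
            have huA : u ∈ A := hPA z hz hu1
            have huZ : u ∉ Z := hd u huA
            have huz' : u ≠ z := by
              rintro rfl
              exact huZ hz
            by_cases hux : u = x
            · have e1 := (h2 u huA z hz hu1 hux).1
              simp only [extG, stt, if_pos hz, if_neg huZ, if_neg huz', if_pos hux, if_true]
              exact ⟨e1, trivial, trivial⟩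
            · have e1 := (h3 u huA z hz hu1 hux).1
              simp only [extG, stt, if_pos hz, if_neg huZ, if_neg huz', if_neg hux, if_true]
              exact ⟨e1, trivial, trivial⟩
          · intro u hu huz
            have huZ : u ∈ Z := by
              rcases mem_union.1 hu with h1 | h1
              · exact absurd huz (hR z hz u h1).1
              · exact h1
            have huz' : u ≠ z := by
              rintro rfl
              exact hRz u hz huz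
            simp only [extG, stt, if_pos huZ, if_neg huz']
        · intro j _
          simp only [extG, stt, if_pos hz, if_true]
      change κ (T0 σ) (S0 σ) z k ∉ h z (extG σ Z (fun z => κ (T0 σ) (S0 σ) z)
          (fun z => N' (T0 σ) (S0 σ) z (τ σ) (P' σ) (c σ) (Q' σ))
          (fun z v => if v = x then A' (T0 σ) (S0 σ) z (P' σ) (c σ)
            else B' (T0 σ) (S0 σ) z (τ σ) (Q' σ))
          (fun _ v => if v = x then T0 σ else S0 σ)) k
      rw [h11]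
      exact h10

theorem rowG19 (hX : RowX) : RowG := by
  classical
  intro n s
  obtain ⟨M, Lb, hLM, hLb, hX⟩ := hX n s
  obtain ⟨Q, hQ⟩ := TL.siblings n n n Lb hLb
  refine ⟨M, Q + 1, Nat.succ_pos Q, ?_⟩
  intro P R ρ A Z P0 hdisj hP0A hP0c hZP hP0 hch hR hρ hρ2 hρ3 hA h hl hg
  have hd : ∀ v ∈ A, v ∉ Z := fun v hv hvZ => Finset.disjoint_left.1 hdisj hv hvZ
  have hPA : ∀ z ∈ Z, P z ⊆ A := fun z hz => by rw [hZP z hz]; exact hP0A
  have hRz : ∀ z ∈ Z, ¬ R z z := fun z hz hr => hρ2 z hz z hz hr rfl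
  have hrL : ∀ _k : Fin n, (range (n * s + 1)).card = n * s + 1 := fun _ => card_range _
  have h0r : (0 : ℕ) ∈ range (n * s + 1) := mem_range.2 (Nat.succ_pos _)
  have hK : ∀ x : ℕ, ∀ T0 S0 : Bx n, ∃ κ : ℕ → Fin n → ℕ, (∀ k, (T0 k).card ≤ M) →
      (∀ k, (S0 k).card ≤ M) → ∀ z ∈ Z, (∀ k, κ z k < Q + 1) ∧
      SolV (n * s + 1) M T0 S0 (kv h Z κ x z T0 S0) (κ z) := by
    intro x T0 S0
    by_cases hh : (∀ k, (T0 k).card ≤ M) ∧ (∀ k, (S0 k).card ≤ M)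
    · obtain ⟨κ, hκ⟩ := exists_group (P := P) (R := R) (ρ := ρ) (A := A) (Z := Z) (q := Q + 1)
        hX (fun {V} _ _ β C ρ R F a1 a2 a3 a4 a5 a6 a7 =>
          hQ (Q + 1) (Nat.le_succ Q) β C ρ R F a1 a2 a3 a4 a5 a6 a7)
        hd hch hPA hR hρ hρ2 hρ3 h hl hg x T0 S0 hh.1 hh.2
      exact ⟨κ, fun _ _ => hκ⟩
    · exact ⟨fun _ _ => 0, fun h1 h2 => absurd ⟨h1, h2⟩ hh⟩
  obtain ⟨k, hk⟩ : ∃ k, P0.card = k := ⟨_, rfl⟩
  have hk2 : k = 0 ∨ k = 1 ∨ k = 2 := by omega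
  rcases hk2 with rfl | rfl | rfl
  · -- no parent
    have hno : ∀ z ∈ Z, ∀ v, v ∉ P z := by
      intro z hz v hv
      rw [hZP z hz, Finset.card_eq_zero.1 hk] at hv
      exact absurd hv (notMem_empty v)
    exact group_ext hd hch hPA hR hRz hA h hl hg 0 (hK 0)
      (fun _ _ => range (n * s + 1)) (fun _ _ => range (n * s + 1))
      (fun _ _ => range (n * s + 1)) (fun _ _ => range (n * s + 1)) (fun _ _ => 0) (fun _ _ => 0)
      (fun v _ z hz hvz => absurd hvz (hno z hz v))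
      (fun σ _ => ⟨fun k => ⟨h0r, h0r, Finset.Subset.refl _, Finset.Subset.refl _, hrL k, hrL k,
        by rw [card_range]; exact hLM.le, by rw [card_range]; exact hLM.le⟩,
        fun v _ z hz hvz => absurd hvz (hno z hz v), fun v _ z hz hvz => absurd hvz (hno z hz v)⟩)
  · -- one parent
    obtain ⟨x, hx⟩ := Finset.card_eq_one.1 hk
    have hxA : x ∈ A := hP0A (by rw [hx]; exact mem_singleton_self x)
    have hno : ∀ z ∈ Z, ∀ v, v ∈ P z → v = x := by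
      intro z hz v hv
      rw [hZP z hz, hx] at hv
      exact mem_singleton.1 hv
    refine group_ext hd hch hPA hR hRz hA h hl hg x (hK x)
      (fun σ => σ.N x) (fun _ _ => range (n * s + 1))
      (fun σ => σ.N x) (fun _ _ => range (n * s + 1)) (fun σ => σ.c x) (fun _ _ => 0) ?_ ?_
    · intro v _ z hz hvz σ σ' hL
      have hvx := hno z hz v hvz
      subst hvx
      exact ⟨hL.1, rfl, fun _ => ⟨hL.1, rfl⟩, fun hh => absurd rfl hh⟩
    · intro σ hσ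
      have hx1 := hσ.1 x hxA
      refine ⟨fun k => ⟨(hx1 k).1, h0r, Finset.Subset.refl _, Finset.Subset.refl _, (hx1 k).2.1,
        hrL k, by rw [(hx1 k).2.1]; exact hLM.le, by rw [card_range]; exact hLM.le⟩, ?_, ?_⟩
      · intro v _ z hz hvz hvx
        subst hvx
        exact ⟨rfl, fun k => Finset.Subset.refl _⟩
      · intro v _ z hz hvz hvx
        exact absurd (hno z hz v hvz) hvx
  · -- two parents
    obtain ⟨x, y, hxy, hx⟩ := Finset.card_eq_two.1 hk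
    have hxP : x ∈ P0 := by rw [hx]; exact mem_insert_self x _
    have hyP : y ∈ P0 := by rw [hx]; exact mem_insert_of_mem (mem_singleton_self y)
    have hxA : x ∈ A := hP0A hxP
    have hyA : y ∈ A := hP0A hyP
    have hyx : y ≠ x := hxy.symm
    have hno : ∀ z ∈ Z, ∀ v, v ∈ P z → v = x ∨ v = y := by
      intro z hz v hv
      rw [hZP z hz, hx, mem_insert, mem_singleton] at hv
      exact hv
    have hTxy : y ∈ P x ∨ x ∈ P y := by
      rcases lt_or_gt_of_ne hxy with h1 | h1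
      · exact Or.inr (hP0 x hxP y hyP h1)
      · exact Or.inl (hP0 y hyP x hxP h1)
    refine group_ext hd hch hPA hR hRz hA h hl hg x (hK x)
      (fun σ => σ.b x y) (fun σ => σ.b y x) (fun σ => σ.N x) (fun σ => σ.N y) (fun σ => σ.c x)
      (fun σ => σ.c y) ?_ ?_
    · intro v _ z hz hvz σ σ' hL
      rcases hno z hz v hvz with hvx | hvx
      · subst hvx
        obtain ⟨h1, h2, h3⟩ := hL.2.1 y hyA hTxy
        exact ⟨h2, h3, fun _ => ⟨hL.1, h1⟩, fun hh => absurd rfl hh⟩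
      · subst hvx
        obtain ⟨h1, h2, h3⟩ := hL.2.1 x hxA hTxy.symm
        exact ⟨h3, h2, fun hh => absurd hh hyx, fun _ => ⟨h1, hL.1⟩⟩
    · intro σ hσ
      have hx1 := hσ.1 x hxA
      have hy1 := hσ.1 y hyA
      have hb1 := hσ.2 x hxA y hyA hTxy.symm
      have hb2 := hσ.2 y hyA x hxA hTxy
      refine ⟨fun k => ⟨(hx1 k).1, (hy1 k).1, (hb1 k).1, (hb2 k).1, (hx1 k).2.1, (hy1 k).2.1,
        (hb1 k).2, (hb2 k).2⟩, ?_, ?_⟩
      · intro v _ z hz hvz hvx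
        subst hvx
        exact ⟨rfl, fun k => (hb1 k).1⟩
      · intro v _ z hz hvz hvx
        rcases hno z hz v hvz with h1 | h1
        · exact absurd h1 hvx
        · subst h1
          exact ⟨rfl, fun k => (hb2 k).1⟩

end Pool.Agent.Lib.MP_994fee_co.TwS
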