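import Pool.Agent.Lib.MP_994fee_co.TwS.Defs19
import Pool.Agent.Lib.MP_994fee_co.TwB.Final19

/-!
# Row O: the structure implies that the players lose
-/

namespace Pool.Agent.Lib.MP_994fee_co.TwS

open Finset TwB TL

/-- The depth of a block. -/
noncomputable def dep28 (P : ℕ → Finset ℕ) (hP : ∀ i, ∀ j ∈ P i, j < i) : ℕ → ℕ
  | i => (P i).attach.sup (fun j => dep28 P hP j.1 + 1)
termination_by i => i
decreasing_by exact hP i j.1 j.2

theorem dep28_eq (P : ℕ → Finset ℕ) (hP : ∀ i, ∀ j ∈ P i, j < i) (i : ℕ) :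
    dep28 P hP i = (P i).sup (fun j => dep28 P hP j + 1) := by
  rw [dep28]
  exact Finset.sup_attach (P i) (fun j => dep28 P hP j + 1)

theorem dep28_lt (P : ℕ → Finset ℕ) (hP : ∀ i, ∀ j ∈ P i, j < i) {i j : ℕ} (h : j ∈ P i) :
    dep28 P hP j < dep28 P hP i := by
  rw [dep28_eq P hP i]
  exact Nat.lt_of_succ_le (Finset.le_sup (f := fun j => dep28 P hP j + 1) h)

theorem dep28_congr (P : ℕ → Finset ℕ) (hP : ∀ i, ∀ j ∈ P i, j < i) {i j : ℕ} (h : P i = P j) :
    dep28 P hP i = dep28 P hP j := by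
  rw [dep28_eq P hP i, dep28_eq P hP j, h]

theorem beatP_all28 {n s M q : ℕ}
    (hG : ∀ (P : ℕ → Finset ℕ) (R : ℕ → ℕ → Prop)
      (ρ : ℕ → ℕ) (A Z P0 : Finset ℕ), Disjoint A Z → P0 ⊆ A → P0.card ≤ 2 →
      (∀ z ∈ Z, P z = P0) → (∀ j ∈ P0, ∀ k ∈ P0, j < k → j ∈ P k) →
      (∀ z ∈ Z, ∀ u ∈ A ∪ Z, z ∉ P u) → (∀ z ∈ Z, ∀ u ∈ A, ¬ R z u ∧ ¬ R u z) →
      (∀ z ∈ Z, ρ z < n) → (∀ z ∈ Z, ∀ z' ∈ Z, R z z' → ρ z ≠ ρ z') →
      (∀ z ∈ Z, ∀ W ⊆ Z, (∀ z' ∈ W, R z z' ∧ ρ z' < ρ z) → W.card ≤ n) →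
      BeatP P R n s (n * s + 1) M q A → BeatP P R n s (n * s + 1) M q (A ∪ Z))
    (P : ℕ → Finset ℕ) (R : ℕ → ℕ → Prop) (ρ : ℕ → ℕ)
    (h2 : ∀ i, ∀ j ∈ P i, j < i) (h4 : ∀ i, (P i).card ≤ 2)
    (h5 : ∀ i, ∀ j ∈ P i, ∀ k ∈ P i, j < k → j ∈ P k) (h7 : ∀ i, ρ i < n)
    (hR1 : ∀ i j, R i j → P j = P i) (hR2 : ∀ i j, R i j → ρ i ≠ ρ j)
    (hR3 : ∀ i, ∀ W : Finset ℕ, (∀ j ∈ W, R i j ∧ ρ j < ρ i) → W.card ≤ n)
    (B : Finset ℕ) (h3 : ∀ i ∈ B, P i ⊆ B) : BeatP P R n s (n * s + 1) M q B := by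
  classical
  induction B using Finset.strongInduction with
  | H B ih =>
    rcases B.eq_empty_or_nonempty with hB | hB
    · subst hB
      intro h _ _
      exact ⟨⟨fun _ _ => 0, fun _ _ => ∅, fun _ _ _ => ∅⟩,
        ⟨fun v hv => absurd hv (notMem_empty v), fun v hv => absurd hv (notMem_empty v)⟩,
        fun v hv => absurd hv (notMem_empty v)⟩
    · obtain ⟨i0, hi0, hmax⟩ := Finset.exists_max_image B (dep28 P h2) hB
      set Z : Finset ℕ := B.filter (fun j => P j = P i0) with hZ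
      have hzB : ∀ z ∈ Z, z ∈ B ∧ P z = P i0 := fun z hz => mem_filter.1 hz
      have hno : ∀ z ∈ Z, ∀ u ∈ B, z ∉ P u := by
        intro z hz u hu hzu
        have h8 := dep28_lt P h2 hzu
        have h9 := hmax u hu
        have h10 := dep28_congr P h2 (hzB z hz).2
        omega
      have hAZ : (B \ Z) ∪ Z = B := Finset.sdiff_union_of_subset (filter_subset _ _)
      have hi0Z : i0 ∈ Z := mem_filter.2 ⟨hi0, rfl⟩
      have hss : B \ Z ⊂ B := by
        refine ⟨sdiff_subset, fun h => ?_⟩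
        have := h hi0
        exact (mem_sdiff.1 this).2 hi0Z
      have key := hG P R ρ (B \ Z) Z (P i0) Finset.sdiff_disjoint ?_ (h4 i0)
        (fun z hz => (hzB z hz).2) (h5 i0) ?_ ?_ (fun z _ => h7 z)
        (fun z _ z' _ h => hR2 z z' h) (fun z _ W _ hW => hR3 z W hW) (ih _ hss ?_)
      · rw [hAZ] at key
        exact key
      · intro j hj
        refine mem_sdiff.2 ⟨h3 i0 hi0 hj, fun hjZ => ?_⟩
        have h8 := (hzB j hjZ).2
        rw [← h8] at hj
        exact lt_irrefl _ (h2 j j hj)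
      · intro z hz u hu
        rw [hAZ] at hu
        exact hno z hz u hu
      · intro z hz u hu
        have hu1 := (mem_sdiff.1 hu).1
        have hu2 := (mem_sdiff.1 hu).2
        refine ⟨fun h => hu2 (mem_filter.2 ⟨hu1, ?_⟩), fun h => hu2 (mem_filter.2 ⟨hu1, ?_⟩)⟩
        · rw [hR1 z u h, (hzB z hz).2]
        · rw [← hR1 u z h, (hzB z hz).2]
      · intro i hi j hj
        have hi1 := (mem_sdiff.1 hi).1
        exact mem_sdiff.2 ⟨h3 i hi1 hj, fun hjZ => hno j hjZ i hi1 hj⟩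

/-- ROW O. -/
theorem rowO28 (hG : RowG) : RowO := by
  classical
  intro n s
  obtain ⟨M, q, hq, hGr⟩ := hG n s
  refine ⟨q, hq, ?_⟩
  rintro V G S ⟨β, P, ρ, B, h1, h2, h3, h4, h5, h6, h7, h8, h9⟩ g hg hgs
  rcases S.eq_empty_or_nonempty with hS0 | ⟨v0, hv0⟩
  · subst hS0
    exact ⟨fun _ => 0, fun _ => hq, fun v hv => absurd hv (notMem_empty v)⟩
  have hn : 0 < n := by
    have h10 := h6 (β v0) {v0} (singleton_subset_iff.2 hv0) (by
      intro v hv
      rw [mem_singleton.1 hv])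
    rw [card_singleton] at h10
    exact h10
  have : Nonempty V := ⟨v0⟩
  have hcode := fun i => exists_codeB hn (S.filter (fun v => β v = i))
    (h6 i _ (filter_subset _ _) (fun v hv => (mem_filter.1 hv).2))
  choose e r her using hcode
  let ix : V → Fin n := fun v => e (β v) v
  have hix : ∀ v ∈ S, ∀ w ∈ S, β v = β w → ix v = ix w → v = w := by
    intro v hv w hw h1 h2
    have h3 := her (β v) v (mem_filter.2 ⟨hv, rfl⟩)
    have h4 := her (β v) w (mem_filter.2 ⟨hw, h1.symm⟩)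
    have h5 : e (β v) v = e (β v) w := by
      have : e (β v) v = e (β w) w := h2
      rw [this, h1]
    rw [← h3, ← h4, h5]
  let cV : St ℕ n → V → ℕ := fun σ v => if v ∈ S then σ.c (β v) (ix v) else 0
  let R : ℕ → ℕ → Prop := fun i j => P j = P i ∧ ρ i ≠ ρ j ∧
    ∃ v ∈ S, ∃ w ∈ S, G.Adj v w ∧ β v = i ∧ β w = j
  obtain ⟨σ, h10, h11⟩ := beatP_all28 hGr P R ρ h2 h4 h5 h7 (fun i j h => h.1)
    (fun i j h => h.2.1)
    (fun i W hW => h9 i W (fun j hj => ⟨(hW j hj).1.1, (hW j hj).2, (hW j hj).1.2.2⟩)) B h3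
    (fun i σ k => if h : ∃ v, v ∈ S ∧ β v = i ∧ ix v = k then g h.choose (cV σ) else ∅)
    (by
      intro i hi k σ σ' hL hown
      by_cases h : ∃ v, v ∈ S ∧ β v = i ∧ ix v = k
      · simp only [dif_pos h]
        obtain ⟨hvS, hvi, hvk⟩ := h.choose_spec
        apply hg _ hvS
        intro u hu hvu
        simp only [cV, if_pos hu]
        rcases h8 _ hvS u hu hvu with h12 | h12 | h12 | h12
        · have h13 : ix u ≠ k := by
            intro h14
            exact hvu.ne (hix _ hvS u hu h12 (hvk.trans h14.symm))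
          rw [← h12, hvi]
          exact hown _ h13
        · rw [hvi] at h12
          rw [(hL.2.1 (β u) (h1 u hu) (Or.inr h12)).1]
        · rw [hvi] at h12
          rw [(hL.2.1 (β u) (h1 u hu) (Or.inl h12)).1]
        · rw [hvi] at h12
          rw [hL.2.2 (β u) (h1 u hu) ⟨h12.1.symm, h12.2, _, hvS, u, hu, hvu, hvi, rfl⟩]
      · simp only [dif_neg h])
    (by
      intro i σ k
      by_cases h : ∃ v, v ∈ S ∧ β v = i ∧ ix v = k
      · simp only [dif_pos h]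
        exact hgs _ h.choose_spec.1 _
      · simp only [dif_neg h, card_empty]
        exact Nat.zero_le s)
  refine ⟨cV σ, ?_, ?_⟩
  · intro v
    by_cases hv : v ∈ S
    · simp only [cV, if_pos hv]
      exact (h10.1 (β v) (h1 v hv) (ix v)).2.2
    · simp only [cV, if_neg hv]
      exact hq
  · intro v hv
    have h12 := h11 (β v) (h1 v hv) (ix v)
    have h : ∃ w, w ∈ S ∧ β w = β v ∧ ix w = ix v := ⟨v, hv, rfl, rfl⟩
    have h13 : h.choose = v :=
      hix _ h.choose_spec.1 v hv h.choose_spec.2.1 h.choose_spec.2.2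
    simp only [dif_pos h] at h12
    rw [h13] at h12
    have h14 : cV σ v = σ.c (β v) (ix v) := by simp only [cV, if_pos hv]
    rw [h14]
    exact h12

end Pool.Agent.Lib.MP_994fee_co.TwS
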