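import Pool.Agent.Lib.MP_994fee_co.TwS.Defs19

/-!
# The structure implies that the players lose
-/

namespace Pool.Agent.Lib.MP_994fee_co

open Finset TL

namespace TwS

open TwB

/-- In a nonempty set closed under parents there is a group of siblings none of which is a
parent. -/
lemma exists_group61 {P : ℕ → Finset ℕ} (hP : ∀ i, ∀ j ∈ P i, j < i) {B : Finset ℕ}
    (hB : B.Nonempty) :
    ∃ i₀ ∈ B, ∀ z ∈ B, P z = P i₀ → ∀ u ∈ B, z ∉ P u := by
  classical
  have hne : ∀ i, i ∈ B → (B.filter (fun j => P j = P i)).Nonempty :=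
    fun i hi => ⟨i, mem_filter.2 ⟨hi, rfl⟩⟩
  let f : ℕ → ℕ := fun i => if h : (B.filter (fun j => P j = P i)).Nonempty then
    (B.filter (fun j => P j = P i)).min' h else 0
  have hf : ∀ i (hi : i ∈ B), f i = (B.filter (fun j => P j = P i)).min' (hne i hi) := by
    intro i hi
    simp only [f, dif_pos (hne i hi)]
  obtain ⟨i₀, hi₀, hmax⟩ := Finset.exists_max_image B f hB
  refine ⟨i₀, hi₀, ?_⟩
  intro z hz hzP u hu hzu
  have h1 : f i₀ ≤ z := by
    rw [hf i₀ hi₀]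
    exact Finset.min'_le _ _ (mem_filter.2 ⟨hz, hzP⟩)
  have h2 : z < f u := by
    rw [hf u hu]
    have h3 := Finset.min'_mem _ (hne u hu)
    obtain ⟨_, h4⟩ := mem_filter.1 h3
    refine hP _ z ?_
    rw [h4]
    exact hzu
  have h5 := hmax u hu
  omega

theorem beatP_all61 {P : ℕ → Finset ℕ} {R : ℕ → ℕ → Prop} {ρ : ℕ → ℕ} {n s L M q : ℕ}
    (hG : ∀ (A Z P0 : Finset ℕ), Disjoint A Z → P0 ⊆ A → P0.card ≤ 2 →
      (∀ z ∈ Z, P z = P0) → (∀ j ∈ P0, ∀ k ∈ P0, j < k → j ∈ P k) →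
      (∀ z ∈ Z, ∀ u ∈ A ∪ Z, z ∉ P u) → (∀ z ∈ Z, ∀ u ∈ A, ¬ R z u ∧ ¬ R u z) →
      (∀ z ∈ Z, ρ z < n) → (∀ z ∈ Z, ∀ z' ∈ Z, R z z' → ρ z ≠ ρ z') →
      (∀ z ∈ Z, ∀ W ⊆ Z, (∀ z' ∈ W, R z z' ∧ ρ z' < ρ z) → W.card ≤ n) →
      BeatP P R n s L M q A → BeatP P R n s L M q (A ∪ Z))
    (hP : ∀ i, ∀ j ∈ P i, j < i) (hP2 : ∀ i, (P i).card ≤ 2)
    (htr : ∀ i, ∀ j ∈ P i, ∀ k ∈ P i, j < k → j ∈ P k) (hρ : ∀ i, ρ i < n)
    (hRP : ∀ i j, R i j → P j = P i) (hRρ : ∀ i j, R i j → ρ i ≠ ρ j)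
    (hRn : ∀ i, ∀ W : Finset ℕ, (∀ j ∈ W, R i j ∧ ρ j < ρ i) → W.card ≤ n) :
    ∀ (c : ℕ) (B : Finset ℕ), B.card ≤ c → (∀ i ∈ B, P i ⊆ B) → BeatP P R n s L M q B := by
  classical
  have h0 : BeatP P R n s L M q ∅ := by
    intro h _ _
    exact ⟨⟨fun _ _ => 0, fun _ _ => ∅, fun _ _ _ => ∅⟩,
      ⟨fun v hv => absurd hv (notMem_empty v), fun v hv => absurd hv (notMem_empty v)⟩,
      fun v hv => absurd hv (notMem_empty v)⟩
  intro c
  induction c with
  | zero =>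
    intro B hB _
    rw [card_eq_zero.1 (Nat.le_zero.1 hB)]
    exact h0
  | succ c ih =>
    intro B hB hcl
    rcases B.eq_empty_or_nonempty with hB0 | hB0
    · rw [hB0]
      exact h0
    obtain ⟨i₀, hi₀, hgr⟩ := exists_group61 hP hB0
    set Z := B.filter (fun j => P j = P i₀) with hZ
    have hZm : ∀ z, z ∈ Z ↔ z ∈ B ∧ P z = P i₀ := fun z => by rw [hZ, mem_filter]
    have hZB : Z ⊆ B := filter_subset _ _
    have hun : B \ Z ∪ Z = B := sdiff_union_of_subset hZB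
    have hnot : ∀ z ∈ Z, ∀ u ∈ B, z ∉ P u := fun z hz u hu =>
      hgr z ((hZm z).1 hz).1 ((hZm z).1 hz).2 u hu
    have hsub : ∀ i ∈ B, P i ⊆ B \ Z := by
      intro i hi j hj
      exact mem_sdiff.2 ⟨hcl i hi hj, fun hjZ => hnot j hjZ i hi hj⟩
    have hcard : (B \ Z).card ≤ c := by
      have h1 : (B \ Z).card < B.card := by
        apply card_lt_card
        refine ⟨sdiff_subset, fun h => ?_⟩
        exact (mem_sdiff.1 (h hi₀)).2 ((hZm i₀).2 ⟨hi₀, rfl⟩)
      omega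
    have hA := ih (B \ Z) hcard (fun i hi => hsub i (mem_sdiff.1 hi).1)
    have key := hG (B \ Z) Z (P i₀) sdiff_disjoint (hsub i₀ hi₀) (hP2 i₀)
      (fun z hz => ((hZm z).1 hz).2) (htr i₀)
      (fun z hz u hu => hnot z hz u (by rw [hun] at hu; exact hu))
      (by
        intro z hz u hu
        obtain ⟨huB, huZ⟩ := mem_sdiff.1 hu
        have hzP := ((hZm z).1 hz).2
        constructor
        · intro h
          exact huZ ((hZm u).2 ⟨huB, (hRP z u h).trans hzP⟩)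
        · intro h
          exact huZ ((hZm u).2 ⟨huB, (hRP u z h).symm.trans hzP⟩))
      (fun z _ => hρ z) (fun z _ z' _ h => hRρ z z' h) (fun z _ W _ hW => hRn z W hW) hA
    rw [hun] at key
    exact key

/-- ROW O. -/
theorem rowO61 (hG : RowG) : RowO := by
  classical
  intro n s
  obtain ⟨M, q, hq, hE⟩ := hG n s
  refine ⟨q, hq, ?_⟩
  rintro V G S ⟨β, P, ρ, B, hβB, hP, hcl, hP2, htr, hβn, hρ, hadj, hs⟩ g hg hgs
  rcases S.eq_empty_or_nonempty with hS0 | ⟨v0, hv0⟩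
  · subst hS0
    exact ⟨fun _ => 0, fun _ => hq, fun v hv => absurd hv (notMem_empty v)⟩
  have hn : 0 < n := by
    have h1 := hβn (β v0) {v0} (singleton_subset_iff.2 hv0) (by
      intro v hv
      rw [mem_singleton.1 hv])
    rw [card_singleton] at h1
    exact h1
  have : Nonempty V := ⟨v0⟩
  let R : ℕ → ℕ → Prop := fun i j => P j = P i ∧ ρ j ≠ ρ i ∧
    ∃ v ∈ S, ∃ w ∈ S, G.Adj v w ∧ β v = i ∧ β w = j
  have hcode := fun i => exists_codeB hn (S.filter (fun v => β v = i))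
    (hβn i _ (filter_subset _ _) (fun v hv => (mem_filter.1 hv).2))
  choose e r her using hcode
  let ix : V → Fin n := fun v => e (β v) v
  have hix : ∀ v ∈ S, ∀ w ∈ S, β v = β w → ix v = ix w → v = w := by
    intro v hv w hw h1 h2
    have h3 := her (β v) v (mem_filter.2 ⟨hv, rfl⟩)
    have h4 := her (β v) w (mem_filter.2 ⟨hw, h1.symm⟩)
    have h5 : e (β v) v = e (β v) w := by
      have : e (β v) v = e (β w) w := h2
      rw [this, h1]
    rw [← h3, ← h4, h5]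
  let cV : St ℕ n → V → ℕ := fun σ v => if v ∈ S then σ.c (β v) (ix v) else 0
  have hbeat : BeatP P R n s (n * s + 1) M q B :=
    beatP_all61 (ρ := ρ) (fun A Z P0 => hE P R ρ A Z P0) hP hP2 htr hρ (fun i j h => h.1)
      (fun i j h => h.2.1.symm)
      (fun i W hW => hs i W (fun j hj => ⟨(hW j hj).1.1, (hW j hj).2, (hW j hj).1.2.2⟩))
      B.card B le_rfl hcl
  obtain ⟨σ, h1, h2⟩ := hbeat
    (fun i σ k => if h : ∃ v, v ∈ S ∧ β v = i ∧ ix v = k then g h.choose (cV σ) else ∅)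
    (by
      intro i hi k σ σ' hL hown
      by_cases h : ∃ v, v ∈ S ∧ β v = i ∧ ix v = k
      · simp only [dif_pos h]
        obtain ⟨hvS, hvi, hvk⟩ := h.choose_spec
        apply hg _ hvS
        intro u hu hvu
        simp only [cV, if_pos hu]
        rcases hadj _ hvS u hu hvu with h3 | h3 | h3 | ⟨h3, h3'⟩
        · have h4 : ix u ≠ k := by
            intro h5
            exact hvu.ne (hix _ hvS u hu h3 (hvk.trans h5.symm))
          rw [← h3, hvi]
          exact hown _ h4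
        · rw [hvi] at h3
          rw [(hL.2.1 (β u) (hβB u hu) (Or.inr h3)).1]
        · rw [hvi] at h3
          rw [(hL.2.1 (β u) (hβB u hu) (Or.inl h3)).1]
        · rw [hvi] at h3 h3'
          rw [hL.2.2 (β u) (hβB u hu) ⟨h3.symm, h3'.symm, _, hvS, u, hu, hvu, hvi, rfl⟩]
      · simp only [dif_neg h])
    (by
      intro i σ k
      by_cases h : ∃ v, v ∈ S ∧ β v = i ∧ ix v = k
      · simp only [dif_pos h]
        exact hgs _ h.choose_spec.1 _
      · simp only [dif_neg h, card_empty]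
        exact Nat.zero_le s)
  refine ⟨cV σ, ?_, ?_⟩
  · intro v
    by_cases hv : v ∈ S
    · simp only [cV, if_pos hv]
      exact (h1.1 (β v) (hβB v hv) (ix v)).2.2
    · simp only [cV, if_neg hv]
      exact hq
  · intro v hv
    have h3 := h2 (β v) (hβB v hv) (ix v)
    have h : ∃ w, w ∈ S ∧ β w = β v ∧ ix w = ix v := ⟨v, hv, rfl, rfl⟩
    have h4 : h.choose = v :=
      hix _ h.choose_spec.1 v hv h.choose_spec.2.1 h.choose_spec.2.2
    simp only [dif_pos h] at h3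
    rw [h4] at h3
    have h5 : cV σ v = σ.c (β v) (ix v) := by simp only [cV, if_pos hv]
    rw [h5]
    exact h3

end TwS

end Pool.Agent.Lib.MP_994fee_co
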