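import Pool.Agent.Lib.MP_994fee_co.TwS.Defs19

/-!
# Row X: every large box contains a solvable colour vector
-/

namespace Pool.Agent.Lib.MP_994fee_co.TwS

open Finset TwB

/-- The extension property with labels inside the palette. -/
theorem exists_extPal (n s : ℕ) : ∃ M q : ℕ, n * s + 1 < M ∧ 0 < q ∧
    ∀ (T S : Bx n) (κ : KapV n), KVOK s κ → (∀ k, (T k).card ≤ M) → (∀ k, (S k).card ≤ M) →
    ∃ (f : Fin n → ℕ) (A : Bx n → (Fin n → ℕ) → Bx n) (B : (Fin n → ℕ) → Bx n → Bx n)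
    (N : (Fin n → ℕ) → Bx n → (Fin n → ℕ) → Bx n → Bx n), (∀ k, f k < q) ∧
    (∀ P c k, (A P c k).card ≤ M ∧ ∀ z ∈ A P c k, z < q) ∧ (∀ τ Q k, (B τ Q k).card ≤ M) ∧
    ∀ τ P c Q, (∀ k, τ k ∈ P k) → (∀ k, c k ∈ Q k) → (∀ k, P k ⊆ T k) → (∀ k, Q k ⊆ S k) →
      (∀ k, (P k).card = n * s + 1) → (∀ k, (Q k).card = n * s + 1) →
      (∀ k, f k ∈ N τ P c Q k ∧ (N τ P c Q k).card = n * s + 1 ∧ N τ P c Q k ⊆ A P c k ∧
        N τ P c Q k ⊆ B τ Q k) ∧ ∀ k, f k ∉ κ τ c (A P c) (B τ Q) (N τ P c Q) f k := by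
  classical
  obtain ⟨M, D, r, hLM, hpar, hD⟩ := exists_par n (n * s + 1)
  obtain ⟨q, hq, h⟩ := core_finB n s (n * s + 1) M (M ^ n) ((n * s + 1) ^ n)
    (core_infB n s (n * s + 1) M (M ^ n) D r (Nat.lt_succ_self _) rfl hpar hD)
  refine ⟨M, q, hLM, hq, ?_⟩
  intro T S κ hκ hT hS
  have hM : 0 < M := by omega
  have hK : 0 < M ^ n := Nat.pow_pos hM
  have hcT : ∀ T : Bx n, (∀ k, (T k).card ≤ M) → (Fintype.piFinset T).card ≤ M ^ n := by
    intro T hT
    rw [Fintype.card_piFinset]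
    calc ∏ k, (T k).card ≤ ∏ _k : Fin n, M := Finset.prod_le_prod' (fun k _ => hT k)
      _ = M ^ n := by rw [prod_const, card_univ, Fintype.card_fin]
  have hcL : ∀ T : Bx n, (∀ k, (T k).card = n * s + 1) →
      (Fintype.piFinset T).card = (n * s + 1) ^ n := by
    intro T hT
    rw [Fintype.card_piFinset]
    simp only [hT, prod_const, card_univ, Fintype.card_fin]
  obtain ⟨e, r, her⟩ := exists_codeB hK (Fintype.piFinset T) (hcT T hT)
  obtain ⟨e', r', her'⟩ := exists_codeB hK (Fintype.piFinset S) (hcT S hS)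
  obtain ⟨f, A, B, N, hf, hA, hB, hN⟩ := h (fun ij => κ (r ij.1) (r' ij.2))
    ⟨fun ij A B N f k => hκ.1 _ _ _ _ _ _ _, fun ij A B N f f' k hff =>
      hκ.2 _ _ _ _ _ _ _ _ hff⟩
  refine ⟨f, fun P c => A ((Fintype.piFinset P).image e) (e' c),
    fun τ Q => B (e τ) ((Fintype.piFinset Q).image e'),
    fun τ P c Q => N (e τ) ((Fintype.piFinset P).image e) (e' c) ((Fintype.piFinset Q).image e'),
    hf, fun P c k => hA _ _ k, fun τ Q k => (hB _ _ k).1, ?_⟩
  intro τ P c Q h1 h2 h3 h4 h5 h6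
  have h1' : τ ∈ Fintype.piFinset P := Fintype.mem_piFinset.2 h1
  have h2' : c ∈ Fintype.piFinset Q := Fintype.mem_piFinset.2 h2
  have hτT : τ ∈ Fintype.piFinset T := Fintype.mem_piFinset.2 (fun k => h3 k (h1 k))
  have hcS : c ∈ Fintype.piFinset S := Fintype.mem_piFinset.2 (fun k => h4 k (h2 k))
  have h7 := hN (e τ) ((Fintype.piFinset P).image e) (e' c) ((Fintype.piFinset Q).image e')
    (mem_image_of_mem e h1') (mem_image_of_mem e' h2')
    (le_trans card_image_le (le_of_eq (hcL P h5))) (le_trans card_image_le (le_of_eq (hcL Q h6)))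
  simp only [her τ hτT, her' c hcS] at h7
  exact h7

theorem rowX19 : RowX := by
  classical
  intro n s
  obtain ⟨M, q, hLM, hq, h⟩ := exists_extPal n s
  refine ⟨M, q, hLM, hq, ?_⟩
  intro T S κ hκ hT hS ι hι
  let i : Fin n → ℕ → ℕ := fun k y => if hy : y < q then ι k ⟨y, hy⟩ else 0
  have hi : ∀ k (y : ℕ) (hy : y < q), i k y = ι k ⟨y, hy⟩ := by
    intro k y hy
    simp only [i, dif_pos hy]
  have hinj : ∀ k, Set.InjOn (i k) {y | y < q} := by
    intro k y hy y' hy' hyy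
    rw [hi k y hy, hi k y' hy'] at hyy
    exact congrArg Fin.val (hι k hyy)
  let im : Bx n → Bx n := fun A k => (A k).image (i k)
  obtain ⟨f, A, B, N, hf, hA, hB, hN⟩ := h T S
    (fun τ c A B N f k => (range q).filter (fun y =>
      i k y ∈ κ τ c (im A) (im B) (im N) (fun k => i k (f k)) k))
    (by
      constructor
      · intro τ c A B N f k
        refine le_trans ?_ (hκ.1 τ c (im A) (im B) (im N) (fun k => i k (f k)) k)
        refine Finset.card_le_card_of_injOn (i k) ?_ ?_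
        · intro y hy
          exact (mem_filter.1 (Finset.mem_coe.1 hy)).2
        · intro y hy y' hy' hyy
          exact hinj k (mem_range.1 (mem_filter.1 (Finset.mem_coe.1 hy)).1)
            (mem_range.1 (mem_filter.1 (Finset.mem_coe.1 hy')).1) hyy
      · intro τ c A B N f f' k hff
        have h1 : κ τ c (im A) (im B) (im N) (fun k => i k (f k)) k =
            κ τ c (im A) (im B) (im N) (fun k => i k (f' k)) k := by
          apply hκ.2
          intro j hj
          rw [hff j hj]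
        simp only [h1]) hT hS
  refine ⟨fun k => ⟨f k, hf k⟩, fun P c => im (A P c), fun τ Q => im (B τ Q),
    fun τ P c Q => im (N τ P c Q), ?_, ?_, ?_⟩
  · intro P c k
    exact le_trans card_image_le (hA P c k).1
  · intro τ Q k
    exact le_trans card_image_le (hB τ Q k)
  · intro τ P c Q h1 h2 h3 h4 h5 h6
    obtain ⟨h7, h8⟩ := hN τ P c Q h1 h2 h3 h4 h5 h6
    have hfe : (fun k => ι k ⟨f k, hf k⟩) = fun k => i k (f k) := by
      funext k
      rw [hi k (f k) (hf k)]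
    rw [hfe]
    refine ⟨fun k => ⟨mem_image_of_mem (i k) (h7 k).1, ?_, Finset.image_subset_image (h7 k).2.2.1,
      Finset.image_subset_image (h7 k).2.2.2⟩, ?_⟩
    · simp only [im]
      rw [Finset.card_image_of_injOn, (h7 k).2.1]
      intro y hy y' hy' hyy
      exact hinj k ((hA P c k).2 y ((h7 k).2.2.1 (Finset.mem_coe.1 hy)))
        ((hA P c k).2 y' ((h7 k).2.2.1 (Finset.mem_coe.1 hy'))) hyy
    · intro k hk
      exact h8 k (mem_filter.2 ⟨mem_range.2 (hf k), hk⟩)

end Pool.Agent.Lib.MP_994fee_co.TwS
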